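import Pool.Agent.N180.UD.Theory

/-!
# The manifolds `A (P) = R # bd P # K3` and `B (P) = R # bd P # 11 (S^2 × S^2)`
-/

set_option autoImplicit false

namespace Pool.Agent.N180.UD

variable (T : FourManifolds)

namespace FourManifolds

variable {T}

/-- All copies of a summand can be reversed. -/
theorem tw_bar_nsmul (X Y : T.M) (n : ℕ) : T.tw (X + n • T.bar Y) = T.tw (X + n • Y) := by
  induction n generalizing X with
  | zero => simp
  | succ n ih =>
    rw [succ_nsmul, ← add_assoc, T.tw_bar, add_right_comm, ih, succ_nsmul]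
    congr 1
    abel

/-- The manifolds `R # X # K3` and `R # X # 11 (S^2 × S^2)` are homeomorphic. -/
theorem top_eq (X : T.M) : T.twT (T.top (X + T.K3)) = T.twT (T.top (X + 11 • T.S)) := by
  have h1 : T.top (X + T.K3) =
      (T.top X + T.barT T.E8 + 3 • T.top T.S) + T.barT T.E8 := by
    rw [map_add, T.freedman_K3]; abel
  have h2 : T.top (X + 11 • T.S) = T.top X + (T.E8 + T.barT T.E8) + 3 • T.top T.S := by
    rw [map_add, map_nsmul, T.freedman_E8]; abel
  rw [h1, h2, T.twT_bar]
  congr 1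
  abel

/-- If there is a summand `CP^2 # (-CP^2)` then `R # X # K3` and `R # X # 11 (S^2 × S^2)` are
diffeomorphic. -/
theorem tw_eq (X : T.M) :
    T.tw (X + (T.CP + T.bar T.CP) + T.K3) = T.tw (X + (T.CP + T.bar T.CP) + 11 • T.S) := by
  have hS : ∀ n : ℕ, n • T.S + T.CP = (n + 1) • T.CP + n • T.bar T.CP := by
    intro n
    induction n with
    | zero => simp
    | succ n ih =>
      have : (n + 1) • T.S + T.CP = n • T.S + (T.S + T.CP) := by rw [succ_nsmul]; abel
      rw [this, T.wall_S]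
      have : n • T.S + (2 • T.CP + T.bar T.CP) = (n • T.S + T.CP) + (T.CP + T.bar T.CP) := by
        rw [two_nsmul]; abel
      rw [this, ih, succ_nsmul (T.CP) (n + 1), succ_nsmul (T.bar T.CP) n]
      abel
  have h1 : X + (T.CP + T.bar T.CP) + T.K3 = (X + 4 • T.CP) + 20 • T.bar T.CP := by
    have : X + (T.CP + T.bar T.CP) + T.K3 = X + T.bar T.CP + (T.K3 + T.CP) := by abel
    rw [this, T.mandelbaum_moishezon]
    abel
  have h2 : X + (T.CP + T.bar T.CP) + 11 • T.S = (X + 12 • T.CP) + 12 • T.bar T.CP := by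
    have : X + (T.CP + T.bar T.CP) + 11 • T.S = X + T.bar T.CP + (11 • T.S + T.CP) := by abel
    rw [this, hS 11]
    abel
  rw [h1, h2, tw_bar_nsmul, tw_bar_nsmul]
  congr 1
  abel

/-- The K3 surface is not zero in the bordism group over the wedge. -/
theorem k3_ne (P : Pres) : T.jP P (T.inP P T.k3) ≠ 0 := by
  intro h
  obtain ⟨y, hy, hz⟩ := T.mayer_vietoris P (T.inP P T.k3) 0 (by rw [h, map_zero, add_zero])
  have h1 : T.sgn y = -16 := by
    rw [← T.sgnP_inP P, ← hy, T.sgnP_inP, T.sgn_k3]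
  obtain ⟨v, hv⟩ := T.inC_ker y (by rw [eq_comm, neg_eq_zero] at hz; exact hz)
  obtain ⟨k, hk⟩ := T.rochlin v
  rw [hv, map_add, hk] at h1
  omega

/-- In the case of the property `Lifts` the two manifolds are not diffeomorphic. -/
theorem tw_ne (P : Pres) (hP : Lifts P) : T.tw (T.bd P + T.K3) ≠ T.tw (T.bd P + 11 • T.S) := by
  intro h
  have hS : ∀ n : ℕ, T.cls P (T.tw (T.bd P + n • T.S)) = {0} := by
    intro n
    induction n with
    | zero => rw [zero_nsmul, add_zero]; exact T.cls_bd P hP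
    | succ n ih =>
      rw [succ_nsmul, ← add_assoc, T.cls_add P _ _ _ T.sc_S, ih]
      simp
  have h1 : T.cls P (T.tw (T.bd P + T.K3)) = {T.jP P (T.inP P T.k3)} := by
    rw [T.cls_add P _ _ _ T.sc_K3, T.cls_bd P hP]
    simp
  rw [h, hS 11] at h1
  exact k3_ne P (Set.singleton_injective h1).symm

end FourManifolds

end Pool.Agent.N180.UD
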