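import Mathlib

/-!
# Triangulated 4-manifolds and labelled presentations: definitions
-/

set_option autoImplicit false

namespace Pool.Agent.N180.UD

noncomputable section

/-! ### Complexes -/

/-- A finite simplicial complex, given by a finite list of simplices (lists of vertices) which
generate it. -/
abbrev Cx : Type := List (List ℕ)

/-- The geometric realization of a complex, in the space of the functions on the set of vertices. -/
def space (K : Cx) : Set (ℕ → ℝ) :=
  {x | ∃ σ ∈ K, (∀ i, 0 ≤ x i) ∧ (∀ i, i ∉ σ → x i = 0) ∧ ∑ i ∈ σ.toFinset, x i = 1}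

/-- The realizations are homeomorphic. -/
def Homeo (K L : Cx) : Prop := Nonempty (space K ≃ₜ space L)

/-- The realizations are homeomorphic by a piecewise linear homeomorphism: its graph is a compact
polyhedron, a finite union of convex hulls of finite sets. -/
def PLHomeo (K L : Cx) : Prop :=
  ∃ h : space K ≃ₜ space L, ∃ F : Finset (Finset ((ℕ → ℝ) × (ℕ → ℝ))),
    {z : (ℕ → ℝ) × (ℕ → ℝ) | ∃ x : space K, z = ((x : ℕ → ℝ), ((h x : space L) : ℕ → ℝ))} =
      ⋃ s ∈ F, convexHull ℝ (s : Set ((ℕ → ℝ) × (ℕ → ℝ)))

/-- The link of the vertex `v`. -/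
def link (K : Cx) (v : ℕ) : Cx := (K.filter fun σ => v ∈ σ).map fun σ => σ.filter fun i => i ≠ v

/-- The boundary of the 4-simplex: the standard PL 3-sphere. -/
def sphere3 : Cx := [[1, 2, 3, 4], [0, 2, 3, 4], [0, 1, 3, 4], [0, 1, 2, 4], [0, 1, 2, 3]]

/-- The 3-simplex: the standard PL 3-ball. -/
def ball3 : Cx := [[0, 1, 2, 3]]

/-- The complex `K` is a combinatorial (compact) 4-manifold: the link of every vertex is a PL 3-sphere
or a PL 3-ball. -/
def IsManifold (K : Cx) : Prop :=
  ∀ σ ∈ K, ∀ v ∈ σ, PLHomeo (link K v) sphere3 ∨ PLHomeo (link K v) ball3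

/-- The complex `K` is a closed connected combinatorial 4-manifold. -/
def IsClosedConnected (K : Cx) : Prop :=
  (∀ σ ∈ K, ∀ v ∈ σ, PLHomeo (link K v) sphere3) ∧ IsConnected (space K)

/-- The partial recursive function `f` solves the problem of the diffeomorphism of homeomorphic
4-manifolds, for the triangulated 4-manifolds with the property `C`: whenever `K` and `L` are homeomorphic
manifolds with the property `C` the computation of `f (K, L)` halts, and the answer is `true` if and only if
`K` and `L` are PL homeomorphic (in dimension 4 this is the same thing as a diffeomorphism of the smooth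
manifolds given by `K` and `L`). -/
def Solves (C : Cx → Prop) (f : Cx × Cx →. Bool) : Prop :=
  ∀ K L, C K → C L → Homeo K L → ∃ b ∈ f (K, L), (b = true ↔ PLHomeo K L)

/-! ### Presentations -/

/-- Words in the generators `x_0, x_1, ...` and their inverses; `(k, true)` is `x_k` and `(k, false)` is
its inverse. -/
abbrev Wd : Type := List (ℕ × Bool)

/-- The formal inverse of a word. -/
def winv (w : Wd) : Wd := (w.map fun l => (l.1, !l.2)).reverse

/-- Finite presentations with `n` generators `x_0, ..., x_(n-1)` and a list of relators; each relator has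
a label in `ℤ/2`. Letters `x_k` with `k ≥ n` are ignored (they are trivial in the group). -/
abbrev Pres : Type := ℕ × List (Wd × Bool)

/-- The element of the free group given by a word. -/
def wd (w : Wd) : FreeGroup ℕ := FreeGroup.mk w

/-- The relators of a presentation. -/
def relSet (P : Pres) : Set (FreeGroup ℕ) :=
  {g | ∃ r ∈ P.2, g = wd r.1} ∪ {g | ∃ k, P.1 ≤ k ∧ g = FreeGroup.of k}

/-- The group given by a presentation. -/
abbrev Grp (P : Pres) : Type := PresentedGroup (relSet P)

/-- The element of the group given by a word. -/
def val (P : Pres) (w : Wd) : Grp P := PresentedGroup.mk (relSet P) (wd w)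

/-- The labels of the relators of `P` form a 2-cochain `z` with values in `ℤ/2` of the presentation
complex. The property `Lifts P` says that its class comes from the second cohomology group of the group
`π = Grp P`, that is (Hopf), it vanishes on all spherical classes: there is a central extension by a group
of order two, `{1, c}`, and lifts `e k` of the generators such that each relator `r` takes the value
`c ^ z (r)` at the elements `e k`. (Given any group `E` with such elements one gets an extension of `π`
by pull-back.) -/
def Lifts (P : Pres) : Prop :=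
  ∃ (E : Type) (_ : Group E) (c : E), c ≠ 1 ∧ c * c = 1 ∧ (∀ x : E, c * x = x * c) ∧
    ∃ e : ℕ → E, (∀ k, P.1 ≤ k → e k = 1) ∧
      ∀ r ∈ P.2, FreeGroup.lift e (wd r.1) = if r.2 = true then c else 1

/-- Remove the letters `x_k` with `k ≥ n`. -/
def clean (n : ℕ) (w : Wd) : Wd := w.filter fun l => decide (l.1 < n)

/-- The commutator of two words. -/
def comm (u v : Wd) : Wd := u ++ (v ++ (winv u ++ winv v))

/-- The presentation `⟨G, s, t | ⟩` of `G * F_2`, with `s = x_n` and `t = x_(n+1)`. -/
def ext0 (P : Pres) : Pres := (P.1 + 2, P.2.map fun r => (clean P.1 r.1, r.2))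

/-- The word `[t, [w, s]]`. -/
def newRel (P : Pres) (w : Wd) : Wd :=
  comm [(P.1 + 1, true)] (comm (clean P.1 w) [(P.1, true)])

/-- The presentation `⟨G, s, t | [t, [w, s]]⟩`, with the label `1` on the new relator. -/
def ext (P : Pres) (w : Wd) : Pres := ((ext0 P).1, (ext0 P).2 ++ [(newRel P w, true)])

end

end Pool.Agent.N180.UD
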