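import Pool.Agent.N180.UD.SphC

/-!
# The theorem of Hopf: the labels come from a central extension iff there is no odd sphere
-/

set_option autoImplicit false

namespace Pool.Agent.N180.UD

noncomputable section

open Finsupp

/-- Translation of chains. -/
def trans {G : Type} [Group G] (g : G) : ((G × ℕ) →₀ ℤ) →+ ((G × ℕ) →₀ ℤ) :=
  Finsupp.mapDomain.addMonoidHom fun x => (g * x.1, x.2)

theorem trans_single {G : Type} [Group G] (g : G) (x : G × ℕ) (a : ℤ) :
    trans g (single x a) = single (g * x.1, x.2) a :=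
  Finsupp.mapDomain_single

theorem trans_edge {G : Type} [Group G] (n : ℕ) (g h : G) (j : ℕ) :
    trans g (edge n h j) = edge n (g * h) j := by
  unfold edge
  split
  · exact trans_single _ _ _
  · exact map_zero _

theorem trans_path {G : Type} [Group G] (n : ℕ) (φ : ℕ → G) (g : G) (w : Wd) (h : G) :
    trans g (path n φ h w) = path n φ (g * h) w := by
  induction w generalizing h with
  | nil => exact map_zero _
  | cons l w ih =>
    obtain ⟨j, b⟩ := l
    cases b with
    | true => rw [path, path, map_add, ih, trans_edge, mul_assoc]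
    | false => rw [path, path, map_add, map_neg, ih, trans_edge, mul_assoc]

theorem trans_pathF {G : Type} [Group G] (n : ℕ) (φ : ℕ → G) (g h : G) (y : FreeGroup ℕ) :
    trans g (pathF n φ h y) = pathF n φ (g * h) y := by
  rw [← wd_toWord y, pathF_wd, pathF_wd, trans_path]

/-- The boundary as a homomorphism. -/
def bdryHom (P : Pres) : ((Grp P × ℕ) →₀ ℤ) →+ ((Grp P × ℕ) →₀ ℤ) :=
  AddMonoidHom.mk' (bdry P) (bdry_add P)

theorem labels_add (P : Pres) (a b : (Grp P × ℕ) →₀ ℤ) :
    labels P (a + b) = labels P a + labels P b := by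
  classical
  unfold labels
  refine Finsupp.sum_add_index' ?_ ?_
  · intro x; split <;> rfl
  · intro x r s; split <;> simp

/-- The sum of the labels as a homomorphism. -/
def labelsHom (P : Pres) : ((Grp P × ℕ) →₀ ℤ) →+ ℤ :=
  AddMonoidHom.mk' (labels P) (labels_add P)

theorem labels_single (P : Pres) (x : Grp P × ℕ) (a : ℤ) :
    labels P (single x a) = if (P.2.getD x.2 default).2 = true then a else 0 := by
  unfold labels
  refine Finsupp.sum_single_index ?_
  split <;> rfl

theorem bdry_trans (P : Pres) (g : Grp P) (c : (Grp P × ℕ) →₀ ℤ) :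
    bdry P (trans g c) = trans g (bdry P c) := by
  have h : (bdryHom P).comp (trans g) = (trans g).comp (bdryHom P) := by
    refine Finsupp.addHom_ext fun x a => ?_
    change bdry P (trans g (single x a)) = trans g (bdry P (single x a))
    rw [trans_single, bdry_single, bdry_single, map_zsmul, trans_path]
  exact DFunLike.congr_fun h c

theorem labels_trans (P : Pres) (g : Grp P) (c : (Grp P × ℕ) →₀ ℤ) :
    labels P (trans g c) = labels P c := by
  have h : (labelsHom P).comp (trans g) = labelsHom P := by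
    refine Finsupp.addHom_ext fun x a => ?_
    change labels P (trans g (single x a)) = labels P (single x a)
    rw [trans_single, labels_single, labels_single]
  exact DFunLike.congr_fun h c

theorem supp_trans (P : Pres) (m : ℕ) (g : Grp P) (c : (Grp P × ℕ) →₀ ℤ)
    (hc : ∀ x ∈ c.support, x.2 < m) : ∀ x ∈ (trans g c).support, x.2 < m := by
  classical
  intro x hx
  have h := Finsupp.mapDomain_support hx
  obtain ⟨y, hy, rfl⟩ := Finset.mem_image.1 h
  exact hc y hy

/-- The subgroup of the pairs `(y, t)` such that `y` is trivial in the group of `P`, and the path of `y` is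
the boundary of a 2-chain with sum of labels `t`. -/
def KK (P : Pres) : Subgroup (FreeGroup ℕ × Multiplicative (ZMod 2)) where
  carrier := {z | FreeGroup.lift (gen P) z.1 = 1 ∧ ∃ c : (Grp P × ℕ) →₀ ℤ,
    (∀ x ∈ c.support, x.2 < P.2.length) ∧ bdry P c = pathF P.1 (gen P) 1 z.1 ∧
      Multiplicative.ofAdd ((labels P c : ℤ) : ZMod 2) = z.2}
  one_mem' := by
    refine ⟨map_one _, 0, by simp, ?_, ?_⟩
    · rw [Prod.fst_one, pathF_one]; exact Finsupp.sum_zero_index
    · have : labels P 0 = 0 := Finsupp.sum_zero_index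
      rw [this]; simp
  mul_mem' := by
    classical
    rintro ⟨y, t⟩ ⟨z, s⟩ ⟨hy, c, hc, hcb, hct⟩ ⟨hz, d, hd, hdb, hds⟩
    simp only at hy hz hcb hdb hct hds
    refine ⟨?_, c + d, ?_, ?_, ?_⟩
    · rw [Prod.mk_mul_mk, map_mul, hy, hz, one_mul]
    · intro x hx
      rcases Finset.mem_union.1 (Finsupp.support_add hx) with h | h
      · exact hc x h
      · exact hd x h
    · rw [Prod.mk_mul_mk, bdry_add, hcb, hdb, pathF_mul, hy, mul_one]
    · rw [labels_add, Int.cast_add, ofAdd_add, hct, hds, Prod.mk_mul_mk]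
  inv_mem' := by
    rintro ⟨y, t⟩ ⟨hy, c, hc, hcb, hct⟩
    simp only at hy hcb hct
    refine ⟨?_, -c, ?_, ?_, ?_⟩
    · rw [Prod.inv_mk, map_inv, hy, inv_one]
    · intro x hx
      rw [Finsupp.support_neg] at hx
      exact hc x hx
    · rw [Prod.inv_mk, bdry_neg, hcb, pathF_inv, hy, inv_one, mul_one]
    · have : labels P (-c) = -labels P c := (labelsHom P).map_neg c
      rw [this, Int.cast_neg, ofAdd_neg, hct, Prod.inv_mk]

instance (P : Pres) : (KK P).Normal := by
  refine ⟨?_⟩
  rintro ⟨y, t⟩ ⟨hy, c, hc, hcb, hct⟩ ⟨h, s⟩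
  simp only at hy hcb hct
  refine ⟨?_, trans (FreeGroup.lift (gen P) h) c, supp_trans P _ _ c hc, ?_, ?_⟩
  · change FreeGroup.lift (gen P) (h * y * h⁻¹) = 1
    rw [map_mul, map_mul, hy, mul_one, map_inv, mul_inv_cancel]
  · change _ = pathF P.1 (gen P) 1 (h * y * h⁻¹)
    rw [bdry_trans, hcb, trans_pathF, pathF_mul, pathF_mul, pathF_inv, map_mul, hy]
    simp only [mul_one, one_mul, mul_inv_cancel]
    abel
  · change _ = s * t * s⁻¹
    rw [labels_trans, hct, mul_comm s t, mul_inv_cancel_right]

/-- The converse of `not_oddSphere_of_lifts`. -/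
theorem lifts_of_not_oddSphere (P : Pres) (h : ¬ OddSphere P) : Lifts P := by
  classical
  let q := QuotientGroup.mk' (KK P)
  have hsq : (Multiplicative.ofAdd (1 : ZMod 2)) * Multiplicative.ofAdd (1 : ZMod 2) = 1 := by
    decide
  refine ⟨_, inferInstance, q (1, Multiplicative.ofAdd 1), ?_, ?_, ?_,
    fun k => q (FreeGroup.of k, 1), ?_, ?_⟩
  · intro h1
    obtain ⟨-, c, hc, hcb, hct⟩ := (QuotientGroup.eq_one_iff _).1 h1
    refine h ⟨c, hc, by rw [hcb, pathF_one], ?_⟩
    have h2 : ((labels P c : ℤ) : ZMod 2) = 1 := Multiplicative.ofAdd.injective hct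
    rw [← Int.not_even_iff_odd]
    rintro ⟨k, hk⟩
    rw [hk, Int.cast_add, CharTwo.add_self_eq_zero] at h2
    exact absurd h2 (by decide)
  · rw [← map_mul, Prod.mk_mul_mk, one_mul, hsq]
    exact map_one q
  · intro x
    obtain ⟨⟨y, t⟩, rfl⟩ := QuotientGroup.mk'_surjective (KK P) x
    change q _ * q _ = q _ * q _
    rw [← map_mul, ← map_mul, Prod.mk_mul_mk, Prod.mk_mul_mk, one_mul, mul_one, mul_comm t]
  · intro k hk
    refine (QuotientGroup.eq_one_iff _).2 ⟨?_, 0, by simp, ?_, ?_⟩
    · rw [FreeGroup.lift_apply_of]; exact gen_eq_one P k hk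
    · have h1 : FreeGroup.of k = wd [(k, true)] := rfl
      change _ = pathF P.1 (gen P) 1 (FreeGroup.of k)
      rw [h1, pathF_wd, path, path, edge, if_neg (not_lt.2 hk), add_zero]
      exact Finsupp.sum_zero_index
    · have : labels P 0 = 0 := Finsupp.sum_zero_index
      rw [this]; simp
  · intro r hr
    have h0 : (FreeGroup.lift fun k => q (FreeGroup.of k, 1)) =
        q.comp (MonoidHom.inl (FreeGroup ℕ) (Multiplicative (ZMod 2))) := by
      ext k; simp
    rw [h0]
    change q (wd r.1, 1) = _
    obtain ⟨i, hi, hir⟩ := List.getElem_of_mem hr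
    have hgi : P.2.getD i default = r := by rw [List.getD_eq_getElem _ _ hi, hir]
    have hval : FreeGroup.lift (gen P) (wd r.1) = 1 := by
      rw [lift_gen]
      exact (QuotientGroup.eq_one_iff _).2
        (Subgroup.subset_normalClosure (Or.inl ⟨r, hr, rfl⟩))
    have hmem : (wd r.1, Multiplicative.ofAdd (if r.2 = true then (1 : ZMod 2) else 0)) ∈ KK P := by
      refine ⟨hval, single (1, i) 1, ?_, ?_, ?_⟩
      · intro x hx
        have := Finsupp.support_single_subset hx
        rw [Finset.mem_singleton] at this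
        rw [this]; exact hi
      · rw [bdry_single, one_smul, pathF_wd]
        simp only [hgi]
      · rw [labels_single]
        simp only [hgi]
        split <;> simp
    by_cases hb : r.2 = true
    · rw [if_pos hb] at hmem ⊢
      refine (QuotientGroup.eq (s := KK P)).2 ?_ |>.symm
      have : (1, Multiplicative.ofAdd (1 : ZMod 2))⁻¹ * (wd r.1, (1 : Multiplicative (ZMod 2))) =
          (wd r.1, Multiplicative.ofAdd (1 : ZMod 2)) := by
        rw [Prod.inv_mk, Prod.mk_mul_mk, inv_one, one_mul, mul_one]
        congr 1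
      rw [this]
      exact hmem
    · rw [if_neg hb] at hmem ⊢
      exact (QuotientGroup.eq_one_iff _).2 hmem

/-- The labels come from a central extension if and only if there is no odd sphere. -/
theorem lifts_iff (P : Pres) : Lifts P ↔ ¬ OddSphere P :=
  ⟨not_oddSphere_of_lifts, lifts_of_not_oddSphere P⟩

end

end Pool.Agent.N180.UD
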