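import Pool.Agent.N180.UD.Defs
import Pool.Agent.Y524H.WP2

/-!
# A finite presentation with unsolvable word problem, in the format of `Pres`
-/

set_option autoImplicit false

namespace Pool.Agent.N180.UD

/-- A word in two letters as a word in the letters `0, 1, 2, ...`. -/
def up (w : List (Fin 2 × Bool)) : Wd := w.map fun l => (l.1.val, l.2)

theorem computable_up : Computable up := by
  refine (Primrec.list_map Primrec.id ?_).to_comp
  exact (Primrec.pair (Primrec.fin_val.comp (Primrec.fst.comp Primrec.snd))
    (Primrec.snd.comp Primrec.snd)).to₂

theorem lift_up {G : Type} [Group G] (e : ℕ → G) (w : List (Fin 2 × Bool)) :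
    FreeGroup.lift e (wd (up w)) = FreeGroup.lift (fun i : Fin 2 => e i.val) (FreeGroup.mk w) := by
  unfold wd up
  rw [FreeGroup.lift_mk, FreeGroup.lift_mk, List.map_map]
  rfl

/-- There is a finite presentation with unsolvable word problem (all labels are zero). -/
theorem exists_unsolvable : ∃ (P : Pres) (W : ℕ → Wd), (∀ r ∈ P.2, r.2 = false) ∧ Computable W ∧
    ¬ ComputablePred fun n => val P (W n) = 1 := by
  obtain ⟨rl, W, hW, hn⟩ := Pool.Agent.Y524H.word_problem_two
  refine ⟨(2, rl.map fun r => (up r, false)), fun n => up (W n), ?_, computable_up.comp hW, ?_⟩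
  · intro r hr
    obtain ⟨q, -, rfl⟩ := List.mem_map.1 hr
    rfl
  · intro hc
    apply hn
    have key : ∀ w : List (Fin 2 × Bool),
        val (2, rl.map fun r => (up r, false)) (up w) = 1 ↔
        FreeGroup.mk w ∈ Subgroup.normalClosure
          {x : FreeGroup (Fin 2) | ∃ r ∈ rl, x = FreeGroup.mk r} := by
      intro w
      set P : Pres := (2, rl.map fun r => (up r, false)) with hP
      set R : Set (FreeGroup (Fin 2)) := {x | ∃ r ∈ rl, x = FreeGroup.mk r} with hR
      constructor
      · intro h
        -- the homomorphism to the quotient
        let q : FreeGroup (Fin 2) →* FreeGroup (Fin 2) ⧸ Subgroup.normalClosure R :=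
          QuotientGroup.mk' _
        let e : ℕ → FreeGroup (Fin 2) ⧸ Subgroup.normalClosure R := fun k =>
          if hk : k < 2 then q (FreeGroup.of ⟨k, hk⟩) else 1
        have he : (FreeGroup.lift fun i : Fin 2 => e i.val) = q := by
          ext i
          rw [FreeGroup.lift_apply_of]
          exact dif_pos i.isLt
        have hrel : ∀ x ∈ relSet P, FreeGroup.lift e x = 1 := by
          rintro x (⟨r, hr, rfl⟩ | ⟨k, hk, rfl⟩)
          · obtain ⟨r', hr', rfl⟩ := List.mem_map.1 hr
            simp only
            rw [lift_up, he]
            exact (QuotientGroup.eq_one_iff _).2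
              (Subgroup.subset_normalClosure ⟨r', hr', rfl⟩)
          · have hk' : 2 ≤ k := hk
            rw [FreeGroup.lift_apply_of]
            exact dif_neg (not_lt.2 hk')
        have h1 : PresentedGroup.toGroup hrel (val P (up w)) = 1 := by rw [h, map_one]
        have h2 : PresentedGroup.toGroup hrel (val P (up w)) = FreeGroup.lift e (wd (up w)) := rfl
        rw [h2, lift_up, he] at h1
        exact (QuotientGroup.eq_one_iff _).1 h1
      · intro h
        have hle : Subgroup.normalClosure R ≤
            (FreeGroup.lift fun i : Fin 2 => (PresentedGroup.of i.val : Grp P)).ker := by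
          refine Subgroup.normalClosure_le_normal ?_
          rintro x ⟨r, hr, rfl⟩
          change FreeGroup.lift (fun i : Fin 2 => (PresentedGroup.of i.val : Grp P))
            (FreeGroup.mk r) = 1
          rw [← lift_up (fun k => (PresentedGroup.of k : Grp P))]
          have h3 : FreeGroup.lift (fun k => (PresentedGroup.of k : Grp P)) (wd (up r)) =
              PresentedGroup.mk (relSet P) (wd (up r)) := by
            have : FreeGroup.lift (fun k => (PresentedGroup.of k : Grp P)) =
                PresentedGroup.mk (relSet P) := by
              ext k
              simp [PresentedGroup.of]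
            rw [this]
          rw [h3]
          refine (QuotientGroup.eq_one_iff _).2 (Subgroup.subset_normalClosure (Or.inl ?_))
          exact ⟨(up r, false), List.mem_map.2 ⟨r, hr, rfl⟩, rfl⟩
        have h4 := hle h
        change FreeGroup.lift (fun i : Fin 2 => (PresentedGroup.of i.val : Grp P))
            (FreeGroup.mk w) = 1 at h4
        rw [← lift_up (fun k => (PresentedGroup.of k : Grp P))] at h4
        have h5 : FreeGroup.lift (fun k => (PresentedGroup.of k : Grp P)) =
            PresentedGroup.mk (relSet P) := by
          ext k
          simp [PresentedGroup.of]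
        rw [h5] at h4
        exact h4
    refine hc.of_eq fun n => ?_
    exact key (W n)

end Pool.Agent.N180.UD
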