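import Pool.Agent.N180.UD.Red
import Pool.Agent.N180.UD.Wp
import Pool.Agent.N212.UD.Grp

/-!
# The main theorems
-/

set_option autoImplicit false

namespace Pool.Agent.N180.UD

theorem IsClosedConnected.isManifold {K : Cx} (h : IsClosedConnected K) : IsManifold K :=
  fun σ hσ v hv => Or.inl (h.1 σ hσ v hv)

theorem Solves.mono {C C' : Cx → Prop} (h : ∀ K, C K → C' K) {f : Cx × Cx →. Bool}
    (hf : Solves C' f) : Solves C f := fun K L hK hL => hf K L (h K hK) (h L hL)

/-- No algorithm decides diffeomorphism of homeomorphic closed connected 4-manifolds. -/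
theorem undecidable (T : FourManifolds) :
    ¬ ∃ f : Cx × Cx →. Bool, Partrec f ∧ Solves IsClosedConnected f := by
  obtain ⟨P, W, hlab, hW, hun⟩ := exists_unsolvable
  exact reduction T P hlab (fun w hw => (Pool.Agent.N212.UD.lifts_ext_iff P hlab w).2 hw)
    (Pool.Agent.N212.UD.val_newRel P) (Pool.Agent.N212.UD.computable_ext P) W hW hun

/-- No algorithm decides the property `Lifts`. -/
theorem lifts_undecidable : ∃ (P : Pres) (W : ℕ → Wd), (∀ r ∈ P.2, r.2 = false) ∧ Computable W ∧
    (∀ w, Lifts (ext P w) ↔ val P w ≠ 1) ∧ ¬ ComputablePred fun n => Lifts (ext P (W n)) := by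
  obtain ⟨P, W, hlab, hW, hun⟩ := exists_unsolvable
  refine ⟨P, W, hlab, hW, Pool.Agent.N212.UD.lifts_ext_iff P hlab, fun h => hun ?_⟩
  exact h.not.of_eq fun n => by
    rw [Pool.Agent.N212.UD.lifts_ext_iff P hlab]
    exact not_not

end Pool.Agent.N180.UD
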