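import Pool.Agent.N180.UD.Calc

/-!
# The reduction of the word problem
-/

set_option autoImplicit false

namespace Pool.Agent.N180.UD

/-- From an algorithm which decides whether homeomorphic closed 4-manifolds are diffeomorphic one gets an
algorithm for the word problem. -/
theorem reduction (T : FourManifolds) (P : Pres) (hlab : ∀ r ∈ P.2, r.2 = false)
    (h1 : ∀ w, val P w ≠ 1 → Lifts (ext P w))
    (h2 : ∀ w, val P w = 1 → val (ext0 P) (newRel P w) = 1) (h3 : Computable (ext P))
    (W : ℕ → Wd) (hW : Computable W) (hun : ¬ ComputablePred fun n => val P (W n) = 1) :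
    ¬ ∃ f : Cx × Cx →. Bool, Partrec f ∧ Solves IsClosedConnected f := by
  classical
  rintro ⟨f, hf, hs⟩
  apply hun
  obtain ⟨g, hg, hgT⟩ := T.tri_comp T.K3
  obtain ⟨g', hg', hgT'⟩ := T.tri_comp (11 • T.S)
  have hH : ∀ Q : Pres, Homeo (g Q) (g' Q) := fun Q =>
    T.tri_top (hgT Q) (hgT' Q) (FourManifolds.top_eq _)
  have hlab0 : ∀ r ∈ (ext0 P).2, r.2 = false := by
    intro r hr
    obtain ⟨q, hq, rfl⟩ := List.mem_map.1 hr
    exact hlab q hq
  have key : ∀ w, (PLHomeo (g (ext P w)) (g' (ext P w)) ↔ val P w = 1) := by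
    intro w
    rw [T.tri_pl (hgT _) (hgT' _)]
    constructor
    · intro h
      by_contra hw
      exact FourManifolds.tw_ne (ext P w) (h1 w hw) h
    · intro h
      have := T.wall_surgery (ext0 P) (newRel P w) hlab0 (h2 w h)
      change T.bd (ext P w) = _ at this
      rw [this]
      exact FourManifolds.tw_eq _
  have hD : ∀ n, f (g (ext P (W n)), g' (ext P (W n))) =
      Part.some (decide (val P (W n) = 1)) := by
    intro n
    obtain ⟨b, hb, hb'⟩ := hs _ _ (T.tri_closed (hgT (ext P (W n))))
      (T.tri_closed (hgT' (ext P (W n)))) (hH _)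
    rw [Part.eq_some_iff]
    have : b = decide (val P (W n) = 1) := by
      rw [key] at hb'
      by_cases h : val P (W n) = 1
      · rw [hb'.2 h]; simp [h]
      · have : b ≠ true := fun hb => h (hb'.1 hb)
        simp only [ne_eq, Bool.not_eq_true] at this
        simp [h, this]
    rw [← this]
    exact hb
  have hc : Computable fun n => decide (val P (W n) = 1) := by
    have h5 : Partrec fun n => f (g (ext P (W n)), g' (ext P (W n))) :=
      hf.comp ((hg.comp (h3.comp hW)).pair (hg'.comp (h3.comp hW)))
    exact h5.of_eq fun n => by rw [hD n]; rfl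
  exact ComputablePred.computable_iff.2 ⟨_, hc, by funext n; simp⟩

end Pool.Agent.N180.UD
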