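import Pool.Agent.N180.UD.SphDefs

/-!
# If the labels come from a central extension there is no odd sphere
-/

set_option autoImplicit false

namespace Pool.Agent.N180.UD

noncomputable section

open Finsupp

variable (P : Pres)

theorem lift_gen (x : FreeGroup ℕ) : FreeGroup.lift (gen P) x = PresentedGroup.mk (relSet P) x := by
  have : FreeGroup.lift (gen P) = PresentedGroup.mk (relSet P) := by
    ext k
    simp [gen, PresentedGroup.of]
  rw [this]

theorem lift_wd_cons_true {G : Type} [Group G] (φ : ℕ → G) (j : ℕ) (w : Wd) :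
    FreeGroup.lift φ (wd ((j, true) :: w)) = φ j * FreeGroup.lift φ (wd w) := by
  unfold wd
  rw [FreeGroup.lift_mk, FreeGroup.lift_mk]
  simp

theorem lift_wd_cons_false {G : Type} [Group G] (φ : ℕ → G) (j : ℕ) (w : Wd) :
    FreeGroup.lift φ (wd ((j, false) :: w)) = (φ j)⁻¹ * FreeGroup.lift φ (wd w) := by
  unfold wd
  rw [FreeGroup.lift_mk, FreeGroup.lift_mk]
  simp

theorem lift_wd_nil {G : Type} [Group G] (φ : ℕ → G) : FreeGroup.lift φ (wd []) = 1 := by
  unfold wd
  rw [FreeGroup.lift_mk]
  simp

/-- The sign `c ^ t`, for `t` in `ℤ/2`. -/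
def pw {E : Type} [Group E] (c : E) (t : ZMod 2) : E := if t = 0 then 1 else c

theorem pw_add {E : Type} [Group E] {c : E} (hc : c * c = 1) (s t : ZMod 2) :
    pw c (s + t) = pw c s * pw c t := by
  have key : ∀ t : ZMod 2, t = 0 ∨ t = 1 := by decide
  have h10 : (1 : ZMod 2) ≠ 0 := by decide
  have h11 : (1 : ZMod 2) + 1 = 0 := by decide
  unfold pw
  rcases key s with rfl | rfl <;> rcases key t with rfl | rfl <;> simp [hc, h11]

theorem pw_comm {E : Type} [Group E] {c : E} (hz : ∀ x : E, c * x = x * c) (t : ZMod 2) (x : E) :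
    pw c t * x = x * pw c t := by
  unfold pw
  split <;> simp [hz]

variable {P}

/-- If the labels come from a central extension there is no odd sphere. -/
theorem not_oddSphere_of_lifts (h : Lifts P) : ¬ OddSphere P := by
  classical
  obtain ⟨E, _, c, hc1, hc2, hz, e, hek, her⟩ := h
  -- the quotient of `E` by the subgroup generated by `c`
  let Z : Subgroup E := Subgroup.zpowers c
  have hZ : Z.Normal := by
    refine ⟨fun n hn g => ?_⟩
    obtain ⟨k, rfl⟩ := Subgroup.mem_zpowers_iff.1 hn
    have : g * c ^ k * g⁻¹ = c ^ k := by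
      have h2 : Commute c g := hz g
      rw [(h2.zpow_left k).eq.symm]
      group
    rw [this]
    exact hn
  have hmemZ : ∀ x ∈ Z, x = 1 ∨ x = c := by
    intro x hx
    obtain ⟨k, rfl⟩ := Subgroup.mem_zpowers_iff.1 hx
    have hsq : c ^ (2 : ℤ) = 1 := by rw [zpow_two, hc2]
    rcases Int.even_or_odd' k with ⟨m, rfl | rfl⟩
    · left; rw [zpow_mul, hsq, one_zpow]
    · right; rw [zpow_add, zpow_mul, hsq, one_zpow, one_mul, zpow_one]
  let q : E →* E ⧸ Z := QuotientGroup.mk' Z
  have hqc : q c = 1 := (QuotientGroup.eq_one_iff c).2 (Subgroup.mem_zpowers c)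
  have hrel : ∀ x ∈ relSet P, FreeGroup.lift (fun k => q (e k)) x = 1 := by
    have h0 : FreeGroup.lift (fun k => q (e k)) = q.comp (FreeGroup.lift e) := by
      ext k; simp
    rintro x (⟨r, hr, rfl⟩ | ⟨k, hk, rfl⟩)
    · rw [h0, MonoidHom.comp_apply, her r hr]
      split
      · exact hqc
      · exact map_one q
    · rw [FreeGroup.lift_apply_of, hek k hk, map_one]
  let ψ : Grp P →* E ⧸ Z := PresentedGroup.toGroup hrel
  have hψ : ∀ k, ψ (gen P k) = q (e k) := fun k => PresentedGroup.toGroup.of hrel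
  -- a section
  obtain ⟨s, hs⟩ : ∃ s : E ⧸ Z → E, ∀ y, q (s y) = y :=
    ⟨Function.surjInv (QuotientGroup.mk'_surjective Z), Function.surjInv_eq _⟩
  have hlam : ∀ (g : Grp P) (j : ℕ), ∃ t : ZMod 2,
      s (ψ g) * e j = s (ψ (g * gen P j)) * pw c t := by
    intro g j
    have h1 : q (s (ψ g) * e j) = q (s (ψ (g * gen P j))) := by
      rw [map_mul, hs, hs, map_mul, hψ]
    have h2 : (s (ψ (g * gen P j)))⁻¹ * (s (ψ g) * e j) ∈ Z :=
      QuotientGroup.eq.1 h1.symm
    rcases hmemZ _ h2 with h3 | h3
    · exact ⟨0, by rw [pw, if_pos rfl, mul_one]; exact (inv_mul_eq_one.1 h3).symm⟩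
    · exact ⟨1, by
        rw [pw, if_neg (by decide), ← h3]; group⟩
  choose lam hlam using hlam
  -- letters which are ignored
  have hgk : ∀ k, P.1 ≤ k → gen P k = 1 := by
    intro k hk
    change PresentedGroup.mk (relSet P) (FreeGroup.of k) = 1
    exact (QuotientGroup.eq_one_iff _).2
      (Subgroup.subset_normalClosure (Or.inr ⟨k, hk, rfl⟩))
  -- the additive map
  let L : ((Grp P × ℕ) →₀ ℤ) →+ ZMod 2 :=
    Finsupp.liftAddHom fun x => (AddMonoidHom.mulRight (lam x.1 x.2)).comp (Int.castAddHom (ZMod 2))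
  have hL : ∀ g j, L (single (g, j) 1) = lam g j := by
    intro g j
    simp [L]
  have hLe : ∀ g j, s (ψ g) * e j = s (ψ (g * gen P j)) * pw c (L (edge P.1 g j)) := by
    intro g j
    unfold edge
    split
    · rw [hL]; exact hlam g j
    · rename_i hj
      rw [map_zero, pw, if_pos rfl, mul_one, hek j (not_lt.1 hj), hgk j (not_lt.1 hj), mul_one,
        mul_one]
  have hpath : ∀ (w : Wd) (g : Grp P), s (ψ g) * FreeGroup.lift e (wd w) =
      s (ψ (g * FreeGroup.lift (gen P) (wd w))) * pw c (L (path P.1 (gen P) g w)) := by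
    intro w
    induction w with
    | nil =>
      intro g
      rw [lift_wd_nil, lift_wd_nil, path, map_zero, pw, if_pos rfl, mul_one, mul_one, mul_one]
    | cons l w ih =>
      intro g
      obtain ⟨j, b⟩ := l
      cases b with
      | true =>
        rw [lift_wd_cons_true, lift_wd_cons_true, path, map_add, pw_add hc2, ← mul_assoc, hLe,
          mul_assoc, pw_comm hz, ← mul_assoc, ih, mul_assoc, mul_assoc g]
        congr 1
        exact pw_comm hz _ _
      | false =>
        have h1 : s (ψ g) * (e j)⁻¹ =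
            s (ψ (g * (gen P j)⁻¹)) * pw c (-L (edge P.1 (g * (gen P j)⁻¹) j)) := by
          have h2 := hLe (g * (gen P j)⁻¹) j
          rw [inv_mul_cancel_right] at h2
          have h3 : ∀ t : ZMod 2, pw c (-t) = pw c t := by
            intro t; rw [CharTwo.neg_eq]
          have h4 : ∀ t : ZMod 2, pw c t * pw c t = 1 := by
            intro t; rw [← pw_add hc2]; unfold pw
            rw [if_pos (CharTwo.add_self_eq_zero t)]
          rw [h3, mul_inv_eq_iff_eq_mul]
          rw [mul_assoc, pw_comm hz, ← mul_assoc, h2, mul_assoc, h4, mul_one]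
        rw [lift_wd_cons_false, lift_wd_cons_false, path, map_add, map_neg, pw_add hc2,
          ← mul_assoc, h1, mul_assoc, pw_comm hz, ← mul_assoc, ih, mul_assoc, mul_assoc g]
        congr 1
        exact pw_comm hz _ _
  -- relators
  have hr : ∀ r ∈ P.2, ∀ g : Grp P, L (path P.1 (gen P) g r.1) = if r.2 = true then 1 else 0 := by
    intro r hr g
    have h1 := hpath r.1 g
    have h2 : FreeGroup.lift (gen P) (wd r.1) = 1 := by
      rw [lift_gen]
      exact (QuotientGroup.eq_one_iff _).2
        (Subgroup.subset_normalClosure (Or.inl ⟨r, hr, rfl⟩))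
    rw [h2, mul_one, her r hr] at h1
    have h3 := mul_left_cancel h1
    generalize L (path P.1 (gen P) g r.1) = t at h3
    unfold pw at h3
    by_cases hb : r.2 = true
    · rw [if_pos hb] at h3 ⊢
      have ht : t ≠ 0 := by
        rintro rfl
        rw [if_pos rfl] at h3
        exact hc1 h3
      fin_cases t
      · exact absurd rfl ht
      · rfl
    · rw [if_neg hb] at h3 ⊢
      by_contra ht
      rw [if_neg ht] at h3
      exact hc1 h3.symm
  rintro ⟨ch, hsupp, hb, hodd⟩
  have h1 : L (bdry P ch) = ((labels P ch : ℤ) : ZMod 2) := by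
    unfold bdry labels Finsupp.sum
    rw [map_sum, Int.cast_sum]
    refine Finset.sum_congr rfl fun x hx => ?_
    have hx2 := hsupp x hx
    have hmem : P.2.getD x.2 default ∈ P.2 := by
      rw [List.getD_eq_getElem _ _ hx2]
      exact List.getElem_mem hx2
    rw [map_zsmul, hr _ hmem]
    beta_reduce
    by_cases hl : (P.2.getD x.2 default).2 = true
    · rw [if_pos hl, if_pos hl, zsmul_eq_mul, mul_one]
    · rw [if_neg hl, if_neg hl, smul_zero, Int.cast_zero]
  rw [hb, map_zero] at h1
  have h2 : ((labels P ch : ℤ) : ZMod 2) = 1 := by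
    obtain ⟨m, hm⟩ := hodd
    rw [hm]
    push_cast
    have : (2 : ZMod 2) = 0 := by decide
    rw [this]; ring
  rw [h2] at h1
  exact absurd h1 (by decide)

end

end Pool.Agent.N180.UD
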