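import Pool.Agent.N180.UD.SphA

/-!
# Boundaries of 2-chains: the paths with labels in the normal closure of the relators
-/

set_option autoImplicit false

namespace Pool.Agent.N180.UD

noncomputable section

open Finsupp

section act

variable {G : Type} [Group G] (n : ℕ) (φ : ℕ → G)

/-- One step in the Cayley graph. -/
def step (j : ℕ) : Equiv.Perm (G × ((G × ℕ) →₀ ℤ)) where
  toFun x := (x.1 * φ j, x.2 + edge n x.1 j)
  invFun x := (x.1 * (φ j)⁻¹, x.2 - edge n (x.1 * (φ j)⁻¹) j)
  left_inv x := by
    simp only [mul_inv_cancel_right, add_sub_cancel_right]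
  right_inv x := by
    simp only [inv_mul_cancel_right, sub_add_cancel]

/-- The action of the free group. -/
def act : FreeGroup ℕ →* (Equiv.Perm (G × ((G × ℕ) →₀ ℤ)))ᵐᵒᵖ :=
  FreeGroup.lift fun j => MulOpposite.op (step n φ j)

theorem act_wd (w : Wd) (g : G) (a : (G × ℕ) →₀ ℤ) :
    (act n φ (wd w)).unop (g, a) = (g * FreeGroup.lift φ (wd w), a + path n φ g w) := by
  induction w generalizing g a with
  | nil =>
    rw [act, lift_wd_nil, lift_wd_nil, path]
    simp
  | cons l w ih =>
    obtain ⟨j, b⟩ := l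
    cases b with
    | true =>
      have h1 : act n φ (wd ((j, true) :: w)) = MulOpposite.op (step n φ j) * act n φ (wd w) := by
        rw [act, lift_wd_cons_true]
      rw [h1, MulOpposite.unop_mul, Equiv.Perm.mul_apply, MulOpposite.unop_op]
      change (act n φ (wd w)).unop (g * φ j, a + edge n g j) = _
      rw [ih, lift_wd_cons_true, path, mul_assoc, add_assoc]
    | false =>
      have h1 : act n φ (wd ((j, false) :: w)) =
          (MulOpposite.op (step n φ j))⁻¹ * act n φ (wd w) := by
        rw [act, lift_wd_cons_false]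
      rw [h1, MulOpposite.unop_mul, Equiv.Perm.mul_apply, MulOpposite.unop_inv,
        MulOpposite.unop_op]
      change (act n φ (wd w)).unop (g * (φ j)⁻¹, a - edge n (g * (φ j)⁻¹) j) = _
      rw [ih, lift_wd_cons_false, path, mul_assoc, sub_eq_add_neg, add_assoc]

/-- The 1-chain of the path given by an element of the free group. -/
def pathF (g : G) (y : FreeGroup ℕ) : (G × ℕ) →₀ ℤ := ((act n φ y).unop (g, 0)).2

theorem wd_toWord (y : FreeGroup ℕ) : wd y.toWord = y := FreeGroup.mk_toWord

theorem act_apply (y : FreeGroup ℕ) (g : G) (a : (G × ℕ) →₀ ℤ) :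
    (act n φ y).unop (g, a) = (g * FreeGroup.lift φ y, a + pathF n φ g y) := by
  have h1 := act_wd n φ y.toWord g a
  have h2 := act_wd n φ y.toWord g 0
  rw [wd_toWord] at h1 h2
  rw [h1, pathF, h2, zero_add]

theorem pathF_wd (g : G) (w : Wd) : pathF n φ g (wd w) = path n φ g w := by
  rw [pathF, act_wd, zero_add]

theorem pathF_one (g : G) : pathF n φ g 1 = 0 := by
  rw [pathF, map_one]; rfl

theorem pathF_mul (g : G) (y z : FreeGroup ℕ) :
    pathF n φ g (y * z) = pathF n φ g y + pathF n φ (g * FreeGroup.lift φ y) z := by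
  have h : (act n φ (y * z)).unop (g, 0) = (act n φ z).unop ((act n φ y).unop (g, 0)) := by
    rw [map_mul, MulOpposite.unop_mul, Equiv.Perm.mul_apply]
  rw [pathF, h, act_apply, act_apply, zero_add]

theorem pathF_inv (g : G) (y : FreeGroup ℕ) :
    pathF n φ g y⁻¹ = -pathF n φ (g * (FreeGroup.lift φ y)⁻¹) y := by
  have h := pathF_mul n φ (g * (FreeGroup.lift φ y)⁻¹) y y⁻¹
  rw [mul_inv_cancel, pathF_one, inv_mul_cancel_right] at h
  exact (neg_eq_of_add_eq_zero_right h.symm).symm

end act

/-- The 2-chains of `P` supported on the relators with index less than `m`, as an additive subgroup, and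
their boundaries. -/
def Bd (P : Pres) (m : ℕ) : AddSubgroup ((Grp P × ℕ) →₀ ℤ) :=
  AddSubgroup.closure {z | ∃ (g : Grp P) (i : ℕ), i < m ∧
    z = path P.1 (gen P) g (P.2.getD i default).1}

theorem bdry_add (P : Pres) (c d : (Grp P × ℕ) →₀ ℤ) : bdry P (c + d) = bdry P c + bdry P d := by
  classical
  unfold bdry
  exact Finsupp.sum_add_index' (fun _ => zero_smul _ _) (fun _ _ _ => add_smul _ _ _)

theorem bdry_neg (P : Pres) (c : (Grp P × ℕ) →₀ ℤ) : bdry P (-c) = -bdry P c := by
  have h := bdry_add P (-c) c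
  rw [neg_add_cancel] at h
  have h0 : bdry P 0 = 0 := Finsupp.sum_zero_index
  rw [h0] at h
  exact eq_neg_of_add_eq_zero_left h.symm

theorem bdry_single (P : Pres) (x : Grp P × ℕ) (a : ℤ) :
    bdry P (single x a) = a • path P.1 (gen P) x.1 (P.2.getD x.2 default).1 := by
  unfold bdry
  refine Finsupp.sum_single_index ?_
  exact zero_smul _ _

theorem exists_chain (P : Pres) (m : ℕ) (z : (Grp P × ℕ) →₀ ℤ) (hz : z ∈ Bd P m) :
    ∃ c : (Grp P × ℕ) →₀ ℤ, (∀ x ∈ c.support, x.2 < m) ∧ bdry P c = z := by
  classical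
  refine AddSubgroup.closure_induction (p := fun z _ => ∃ c : (Grp P × ℕ) →₀ ℤ,
    (∀ x ∈ c.support, x.2 < m) ∧ bdry P c = z) ?_ ?_ ?_ ?_ hz
  · rintro _ ⟨g, i, hi, rfl⟩
    refine ⟨single (g, i) 1, ?_, ?_⟩
    · intro x hx
      have := Finsupp.support_single_subset hx
      rw [Finset.mem_singleton] at this
      rw [this]; exact hi
    · rw [bdry_single, one_smul]
  · exact ⟨0, by simp, Finsupp.sum_zero_index⟩
  · rintro x y - - ⟨c, hc, rfl⟩ ⟨d, hd, rfl⟩
    refine ⟨c + d, ?_, bdry_add P c d⟩
    intro x hx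
    rcases Finset.mem_union.1 (Finsupp.support_add hx) with h | h
    · exact hc x h
    · exact hd x h
  · rintro x - ⟨c, hc, rfl⟩
    refine ⟨-c, ?_, bdry_neg P c⟩
    intro x hx
    rw [Finsupp.support_neg] at hx
    exact hc x hx

/-- The subgroup of the elements of the free group which are trivial in the group of `P` and all of whose
paths are boundaries of chains on the first `m` relators. -/
def NN (P : Pres) (m : ℕ) : Subgroup (FreeGroup ℕ) where
  carrier := {y | FreeGroup.lift (gen P) y = 1 ∧ ∀ g, pathF P.1 (gen P) g y ∈ Bd P m}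
  one_mem' := ⟨map_one _, fun g => by rw [pathF_one]; exact zero_mem _⟩
  mul_mem' := by
    rintro x y ⟨hx, hx'⟩ ⟨hy, hy'⟩
    refine ⟨by rw [map_mul, hx, hy, one_mul], fun g => ?_⟩
    rw [pathF_mul]
    exact add_mem (hx' g) (hy' _)
  inv_mem' := by
    rintro x ⟨hx, hx'⟩
    refine ⟨by rw [map_inv, hx, inv_one], fun g => ?_⟩
    rw [pathF_inv]
    exact neg_mem (hx' _)

instance (P : Pres) (m : ℕ) : (NN P m).Normal := by
  refine ⟨fun y hy h => ?_⟩
  obtain ⟨hy, hy'⟩ := hy
  refine ⟨?_, fun g => ?_⟩
  · rw [map_mul, map_mul, hy, mul_one, map_inv, mul_inv_cancel]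
  · have h1 : pathF P.1 (gen P) g (h * y * h⁻¹) =
        pathF P.1 (gen P) (g * FreeGroup.lift (gen P) h) y := by
      rw [pathF_mul, pathF_mul, pathF_inv, map_mul, hy, mul_one, mul_inv_cancel_right]
      abel
    rw [h1]
    exact hy' _

theorem gen_eq_one (P : Pres) (k : ℕ) (hk : P.1 ≤ k) : gen P k = 1 := by
  change PresentedGroup.mk (relSet P) (FreeGroup.of k) = 1
  exact (QuotientGroup.eq_one_iff _).2 (Subgroup.subset_normalClosure (Or.inr ⟨k, hk, rfl⟩))

/-- The new relator gives an odd sphere if the word is trivial. -/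
theorem oddSphere_append (P : Pres) (hlab : ∀ r ∈ P.2, r.2 = false) (w : Wd)
    (h : val P w = 1) : OddSphere (P.1, P.2 ++ [(w, true)]) := by
  classical
  set Q : Pres := (P.1, P.2 ++ [(w, true)]) with hQ
  have hQ1 : Q.1 = P.1 := rfl
  have hget : ∀ i, i < P.2.length → Q.2.getD i default = P.2.getD i default := by
    intro i hi
    change (P.2 ++ [(w, true)]).getD i default = _
    exact List.getD_append _ _ _ _ hi
  have hlast : Q.2.getD P.2.length default = (w, true) := by
    change (P.2 ++ [(w, true)]).getD P.2.length default = _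
    rw [List.getD_append_right _ _ _ _ le_rfl]
    simp
  have hw : wd w ∈ Subgroup.normalClosure (relSet P) := (QuotientGroup.eq_one_iff _).1 h
  have hle : Subgroup.normalClosure (relSet P) ≤ NN Q P.2.length := by
    refine Subgroup.normalClosure_le_normal ?_
    rintro x (⟨r, hr, rfl⟩ | ⟨k, hk, rfl⟩)
    · refine ⟨?_, fun g => ?_⟩
      · rw [lift_gen]
        refine (QuotientGroup.eq_one_iff _).2 (Subgroup.subset_normalClosure (Or.inl ?_))
        exact ⟨r, List.mem_append_left _ hr, rfl⟩
      · obtain ⟨i, hi, hir⟩ := List.getElem_of_mem hr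
        refine AddSubgroup.subset_closure ⟨g, i, hi, ?_⟩
        rw [pathF_wd, hget i hi, List.getD_eq_getElem _ _ hi, hir]
    · refine ⟨?_, fun g => ?_⟩
      · rw [FreeGroup.lift_apply_of]; exact gen_eq_one Q k hk
      · have h1 : FreeGroup.of k = wd [(k, true)] := rfl
        rw [h1, pathF_wd, path, path, edge, if_neg (not_lt.2 hk), add_zero]
        exact zero_mem _
  obtain ⟨-, h2⟩ := hle hw
  obtain ⟨c, hc, hcb⟩ := exists_chain Q P.2.length _ (h2 1)
  rw [pathF_wd] at hcb
  refine ⟨single (1, P.2.length) 1 + -c, ?_, ?_, ?_⟩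
  · intro x hx
    have hl : Q.2.length = P.2.length + 1 := by
      change (P.2 ++ [(w, true)]).length = _
      simp
    rw [hl]
    rcases Finset.mem_union.1 (Finsupp.support_add hx) with h | h
    · have := Finsupp.support_single_subset h
      rw [Finset.mem_singleton] at this
      rw [this]
      exact Nat.lt_succ_self _
    · rw [Finsupp.support_neg] at h
      exact Nat.lt_succ_of_lt (hc x h)
  · rw [bdry_add, bdry_neg, hcb]
    have : bdry Q (single (1, P.2.length) 1) = path Q.1 (gen Q) 1 w := by
      rw [bdry_single, one_smul]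
      simp only [hlast]
    rw [this, add_neg_cancel]
  · have h3 : ∀ a b : (Grp Q × ℕ) →₀ ℤ, labels Q (a + b) = labels Q a + labels Q b := by
      intro a b
      unfold labels
      refine Finsupp.sum_add_index' ?_ ?_
      · intro x; split <;> rfl
      · intro x r s; split <;> simp
    have h4 : labels Q (-c) = 0 := by
      unfold labels Finsupp.sum
      refine Finset.sum_eq_zero fun x hx => ?_
      rw [Finsupp.support_neg] at hx
      have hx2 := hc x hx
      have : (Q.2.getD x.2 default).2 = false := by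
        rw [hget _ hx2, List.getD_eq_getElem _ _ hx2]
        exact hlab _ (List.getElem_mem hx2)
      beta_reduce
      rw [this]; simp
    have h5 : labels Q (single (1, P.2.length) 1) = 1 := by
      unfold labels
      rw [Finsupp.sum_single_index (by split <;> rfl)]
      simp only [hlast, if_true]
    rw [h3, h4, h5, add_zero]
    exact odd_one

end

end Pool.Agent.N180.UD
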