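import Pool.Agent.N180.UD.SphB
import Pool.Agent.N180.UD.Wp
import Pool.Agent.N212.UD.Grp

/-!
# The existence of odd spheres is undecidable
-/

set_option autoImplicit false

namespace Pool.Agent.N180.UD

/-- For the presentations `⟨G, s, t | [t, [w, s]]⟩` there is an odd sphere if and only if `w = 1`. -/
theorem oddSphere_ext_iff (P : Pres) (hlab : ∀ r ∈ P.2, r.2 = false) (w : Wd) :
    OddSphere (ext P w) ↔ val P w = 1 := by
  constructor
  · intro h
    by_contra hw
    exact not_oddSphere_of_lifts ((Pool.Agent.N212.UD.lifts_ext_iff P hlab w).2 hw) h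
  · intro h
    refine oddSphere_append (ext0 P) ?_ (newRel P w) (Pool.Agent.N212.UD.val_newRel P w h)
    intro r hr
    obtain ⟨q, hq, rfl⟩ := List.mem_map.1 hr
    exact hlab q hq

theorem spin_main : ∃ (P : Pres) (W : ℕ → Wd),
    (∀ r ∈ P.2, r.2 = false) ∧ Computable (ext P) ∧ Computable W ∧
    (∀ w, OddSphere (ext P w) ↔ val P w = 1) ∧ (∀ w, Lifts (ext P w) ↔ val P w ≠ 1) ∧
    (¬ ComputablePred fun n => OddSphere (ext P (W n))) ∧
    (¬ ComputablePred fun n => Lifts (ext P (W n))) := by
  obtain ⟨P, W, hlab, hW, hun⟩ := exists_unsolvable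
  refine ⟨P, W, hlab, Pool.Agent.N212.UD.computable_ext P, hW, oddSphere_ext_iff P hlab,
    Pool.Agent.N212.UD.lifts_ext_iff P hlab, fun h => hun ?_, fun h => hun ?_⟩
  · exact h.of_eq fun n => oddSphere_ext_iff P hlab _
  · exact h.not.of_eq fun n => by
      rw [Pool.Agent.N212.UD.lifts_ext_iff P hlab]
      exact not_not

theorem not_computable_oddSphere : ¬ ComputablePred OddSphere := by
  obtain ⟨P, W, -, h1, h2, -, -, h3, -⟩ := spin_main
  intro h
  obtain ⟨f, hf, hfe⟩ := ComputablePred.computable_iff.1 h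
  exact h3 (ComputablePred.computable_iff.2 ⟨fun n => f (ext P (W n)), hf.comp (h1.comp h2), by
    funext n; rw [hfe]⟩)

end Pool.Agent.N180.UD
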