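import Pool.Agent.N180.UD.Defs

/-!
# Spherical classes of a presentation complex
-/

set_option autoImplicit false

namespace Pool.Agent.N180.UD

noncomputable section

open Finsupp

/-- The edge of the Cayley graph of `G` (with generators `φ 0, ..., φ (n-1)`) which starts at the vertex
`g` and has the label `j`; it ends at `g * φ j`. -/
def edge {G : Type} (n : ℕ) (g : G) (j : ℕ) : (G × ℕ) →₀ ℤ := if j < n then single (g, j) 1 else 0

/-- The 1-chain of the path in the Cayley graph which starts at the vertex `g` and has the label `w`. -/
def path {G : Type} [Group G] (n : ℕ) (φ : ℕ → G) : G → Wd → ((G × ℕ) →₀ ℤ)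
  | _, [] => 0
  | g, (j, true) :: w => edge n g j + path n φ (g * φ j) w
  | g, (j, false) :: w => -edge n (g * (φ j)⁻¹) j + path n φ (g * (φ j)⁻¹) w

/-- The generators as elements of the group. -/
def gen (P : Pres) (k : ℕ) : Grp P := PresentedGroup.of k

/-- The boundary of a 2-chain of the Cayley complex of the presentation, that is, of the universal cover
of the presentation complex: the 2-cells are the pairs `(g, i)`, where `g` is an element of the group
and `i` is the index of a relator, and the boundary of the 2-cell `(g, i)` is the path which starts
at `g` and has the label of the `i`-th relator. -/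
def bdry (P : Pres) (c : (Grp P × ℕ) →₀ ℤ) : (Grp P × ℕ) →₀ ℤ :=
  c.sum fun x a => a • path P.1 (gen P) x.1 (P.2.getD x.2 default).1

/-- The sum of the labels of the 2-cells of a 2-chain. -/
def labels (P : Pres) (c : (Grp P × ℕ) →₀ ℤ) : ℤ :=
  c.sum fun x a => if (P.2.getD x.2 default).2 = true then a else 0

/-- There is a 2-cycle of the universal cover of the presentation complex of `P` (an element of the second
homotopy group of this complex, by Hurewicz) on which the class of the labels takes the value `1`. -/
def OddSphere (P : Pres) : Prop :=
  ∃ c : (Grp P × ℕ) →₀ ℤ, (∀ x ∈ c.support, x.2 < P.2.length) ∧ bdry P c = 0 ∧ Odd (labels P c)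

end

end Pool.Agent.N180.UD
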