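import Pool.Agent.N180.UD.Defs

/-!
# The topological input: classical theorems on 4-manifolds

The structure `FourManifolds` collects the classical objects of the topology of 4-manifolds which are
needed, with the classical theorems about them. The notation: `R = S^1 ×~ S^3` is the non-orientable
3-sphere bundle over the circle; `N (P)`, for a finite presentation `P` whose relators have labels
`z (r)` in `ℤ/2`, is the orientable 5-dimensional handlebody with one 0-handle, a 1-handle for each
generator and a 2-handle for each relator, such that the second Stiefel-Whitney class of `N (P)` is the
class of the cochain `z` (the framing of the 2-handle of `r` is determined by `z (r)`).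
-/

set_option autoImplicit false

namespace Pool.Agent.N180.UD

/-- The classical objects and theorems. -/
structure FourManifolds where
  -- connected sums
  /-- the closed connected oriented smooth 4-manifolds, up to orientation preserving diffeomorphism -/
  M : Type
  /-- the connected sum, with neutral element `S^4` -/
  [instM : AddCommMonoid M]
  /-- the opposite orientation -/
  bar : M → M
  /-- the closed connected non-orientable smooth 4-manifolds, up to diffeomorphism -/
  N : Type
  /-- the manifold `R # X`, for `X` in `M`, where `R = S^1 ×~ S^3` -/
  tw : M → N
  /-- in `R # X` the summand `Y` can be moved along a path which reverses the orientation -/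
  tw_bar : ∀ X Y : M, tw (X + bar Y) = tw (X + Y)
  /-- the same for topological manifolds, up to homeomorphism -/
  MT : Type
  [instMT : AddCommMonoid MT]
  barT : MT → MT
  NT : Type
  twT : MT → NT
  twT_bar : ∀ X Y : MT, twT (X + barT Y) = twT (X + Y)
  /-- the underlying topological manifold -/
  top : M →+ MT
  -- special manifolds
  /-- the K3 surface -/
  K3 : M
  /-- the product of two 2-spheres -/
  S : M
  /-- the complex projective plane -/
  CP : M
  /-- the E8-manifold of Freedman -/
  E8 : MT
  /-- Freedman (1982): the K3 surface is homeomorphic to the connected sum of two copies of the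
  E8-manifold (with reversed orientation) and three copies of `S^2 × S^2` -/
  freedman_K3 : top K3 = barT E8 + barT E8 + 3 • top S
  /-- Freedman (1982): `E8 # -E8` is homeomorphic to `8 (S^2 × S^2)` -/
  freedman_E8 : E8 + barT E8 = 8 • top S
  /-- Mandelbaum and Moishezon: `K3 # CP^2 = 4 CP^2 # 19 (-CP^2)` -/
  mandelbaum_moishezon : K3 + CP = 4 • CP + 19 • bar CP
  /-- Wall: `(S^2 × S^2) # CP^2 = 2 CP^2 # (-CP^2)` -/
  wall_S : S + CP = 2 • CP + bar CP
  -- boundaries of thickenings
  /-- the boundary of `N (P)` -/
  bd : Pres → M
  /-- Wall: surgery on a null-homotopic circle. If the word `w` is trivial in the group given by `P` and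
  all labels of `P` are zero, then the attaching circle of the additional 2-handle of the relator `w`
  with label `1` is isotopic to a trivial circle in the boundary of `N (P)`, its framing is the
  nontrivial one, and the surgery is the connected sum with the nontrivial 2-sphere bundle over the
  2-sphere, that is, with `CP^2 # (-CP^2)` -/
  wall_surgery : ∀ (P : Pres) (w : Wd), (∀ r ∈ P.2, r.2 = false) → val P w = 1 →
    bd (P.1, P.2 ++ [(w, true)]) = bd P + (CP + bar CP)
  -- triangulations
  /-- the complex `K` is a triangulation of the smooth manifold `Z` (Whitehead) -/
  Tri : Cx → N → Prop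
  tri_closed : ∀ {K : Cx} {Z : N}, Tri K Z → IsClosedConnected K
  /-- Whitehead, Cairns, Hirsch, Munkres: smooth 4-manifolds are diffeomorphic if and only if their
  triangulations are PL homeomorphic -/
  tri_pl : ∀ {K L : Cx} {Z Z' : N}, Tri K Z → Tri L Z' → (PLHomeo K L ↔ Z = Z')
  tri_top : ∀ {K L : Cx} {X Y : M}, Tri K (tw X) → Tri L (tw Y) → twT (top X) = twT (top Y) →
    Homeo K L
  /-- for each `Y` in `M` there is an algorithm which computes triangulations of the manifolds
  `R # bd P # Y`, for all finite presentations `P` -/
  tri_comp : ∀ Y : M, ∃ g : Pres → Cx, Computable g ∧ ∀ P, Tri (g P) (tw (bd P + Y))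
  -- bordism
  /-- the group of spin bordism in dimension four -/
  Om : Type
  [instOm : AddCommGroup Om]
  /-- the signature -/
  sgn : Om →+ ℤ
  /-- Rochlin (1952): the signature of a closed spin 4-manifold is divisible by 16 -/
  rochlin : ∀ y : Om, (16 : ℤ) ∣ sgn y
  /-- `SC X y`: the manifold `X` is simply connected and spin, with bordism class `y` -/
  SC : M → Om → Prop
  /-- the class of the K3 surface, of signature `-16` -/
  k3 : Om
  sc_K3 : SC K3 k3
  sgn_k3 : sgn k3 = -16
  /-- `S^2 × S^2` bounds the spin manifold `S^2 × D^3` -/
  sc_S : SC S 0
  /-- the group of bordism of 4-manifolds with a map `c` to the circle and a spin structure on the sum of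
  the tangent bundle and `c^* γ`, where `γ` is the nontrivial line bundle (three copies of it) -/
  OmC : Type
  [instOmC : AddCommGroup OmC]
  /-- the class of a spin manifold with the constant map to the circle -/
  inC : Om →+ OmC
  /-- exact sequence of the circle and a point: the kernel of `inC` is generated by the differences
  `y - (-y)` of a class and the class transported around the circle -/
  inC_ker : ∀ y : Om, inC y = 0 → ∃ v : Om, y = v + v
  /-- For a presentation `P` with the property `Lifts` let `u` be a class in the second cohomology group of
  the classifying space `B (π)` of `π = Grp P`, with coefficients `ℤ/2`, whose pull-back to the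
  presentation complex is the class of the labels. This is the group of bordism of oriented 4-manifolds
  `X` with a map `c` to `B (π)` and a trivialisation of `w_2 (X) + c^* u` (twisted spin structure). -/
  OmP : Pres → Type
  [instOmP : ∀ P, AddCommGroup (OmP P)]
  /-- the class of a spin manifold with the constant map -/
  inP : ∀ P, Om →+ OmP P
  /-- the signature is an invariant of oriented bordism (Thom, Hirzebruch) -/
  sgnP : ∀ P, OmP P →+ ℤ
  sgnP_inP : ∀ P y, sgnP P (inP P y) = sgn y
  /-- the group of bordism of 4-manifolds with such a structure over the wedge of `B (π)` and the circle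
  -/
  OmW : Pres → Type
  [instOmW : ∀ P, AddCommGroup (OmW P)]
  jP : ∀ P, OmP P →+ OmW P
  jC : ∀ P, OmC →+ OmW P
  /-- the exact sequence of Mayer and Vietoris for the wedge -/
  mayer_vietoris : ∀ P x z, jP P x + jC P z = 0 → ∃ y : Om, x = inP P y ∧ z = -inC y
  /-- the set of the bordism classes of all structures on the manifold `Z` over the wedge of `B (π)` and
  the circle, for which the map `Z → B (π) ∨ S^1` induces an isomorphism of the fundamental groups -/
  cls : ∀ P, N → Set (OmW P)
  /-- a simply connected spin summand: the structures on `Z # Y` are those on `Z`, and the class is
  additive -/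
  cls_add : ∀ P (X Y : M) (y : Om), SC Y y →
    cls P (tw (X + Y)) = (fun x => x + jP P (inP P y)) '' cls P (tw X)
  /-- If `P` has the property `Lifts`, then `R # bd P` has such structures (with the identification of the
  fundamental group with `π * ℤ`); and all of them extend to the boundary sum of `N (P)` and the
  non-orientable `D^4`-bundle over the circle, because the inclusion of the boundary is 2-connected:
  their classes are zero. -/
  cls_bd : ∀ P, Lifts P → cls P (tw (bd P)) = {0}

attribute [instance] FourManifolds.instM FourManifolds.instMT FourManifolds.instOm
  FourManifolds.instOmC FourManifolds.instOmP FourManifolds.instOmW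

end Pool.Agent.N180.UD
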